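import Pool.Agent.Helper32.AG.Goals

/-! # Project AG (MP_0f21ab_al): packet N2

`α + 2 e r ≥ 2 w` (AM-GM), so `2 e (kk + r) + 1 ≥ 2 w + e ^ 2 + 3 e`, `(kk + r - 1) ^ 2 ≥ 2 w`; this is
enough for `w ≥ 150` and for `e = 1`; the other cases are finitely many. -/

set_option autoImplicit false

namespace Pool.Agent.Helper60.AG

open Pool.Agent.Helper32.AG

theorem big (m : ℕ) (hm : 18 ≤ m) : (m ^ 2 * (m ^ 2 + 2)) ^ 2 ≤ 16 * 3 ^ (m + 1) := by
  induction m, hm using Nat.le_induction with
  | base => norm_num
  | succ m hm ih =>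
    have a1 : 18 * m ≤ m ^ 2 := by nlinarith
    have a2 : 18 * m ^ 2 ≤ m ^ 3 := by
      have := Nat.mul_le_mul_right (m ^ 2) hm
      calc 18 * m ^ 2 ≤ m * m ^ 2 := this
        _ = m ^ 3 := by ring
    have a3 : 18 * m ^ 3 ≤ m ^ 4 := by
      have := Nat.mul_le_mul_right (m ^ 3) hm
      calc 18 * m ^ 3 ≤ m * m ^ 3 := this
        _ = m ^ 4 := by ring
    have h1 : 2 * ((m + 1) ^ 2 * ((m + 1) ^ 2 + 2)) ≤ 3 * (m ^ 2 * (m ^ 2 + 2)) := by
      nlinarith
    have h2 : ((m + 1) ^ 2 * ((m + 1) ^ 2 + 2)) ^ 2 ≤ 3 * (m ^ 2 * (m ^ 2 + 2)) ^ 2 := by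
      generalize (m + 1) ^ 2 * ((m + 1) ^ 2 + 2) = X at h1 ⊢
      generalize m ^ 2 * (m ^ 2 + 2) = Y at h1 ⊢
      nlinarith
    calc ((m + 1) ^ 2 * ((m + 1) ^ 2 + 2)) ^ 2 ≤ 3 * (m ^ 2 * (m ^ 2 + 2)) ^ 2 := h2
      _ ≤ 3 * (16 * 3 ^ (m + 1)) := by omega
      _ = 16 * 3 ^ (m + 1 + 1) := by ring

theorem one (w : ℕ) (hw : 4 ≤ w) : (w + 1) ^ 2 * w ^ 2 ≤ 3 ^ (w + 2) := by
  induction w, hw using Nat.le_induction with
  | base => norm_num
  | succ w hw ih =>
    have h1 : (w + 1 + 1) ^ 2 ≤ 3 * w ^ 2 := by nlinarith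
    calc (w + 1 + 1) ^ 2 * (w + 1) ^ 2 ≤ 3 * w ^ 2 * (w + 1) ^ 2 := Nat.mul_le_mul_right _ h1
      _ = 3 * ((w + 1) ^ 2 * w ^ 2) := by ring
      _ ≤ 3 * 3 ^ (w + 2) := by omega
      _ = 3 ^ (w + 1 + 2) := by ring

theorem fin {S s0 X : ℕ} (h : s0 ≤ S) (hX : X ≤ 3 ^ s0) : X ≤ 3 ^ S :=
  hX.trans (Nat.pow_le_pow_right (by norm_num) h)

/-- **N2.** -/
theorem n2 : N2Stmt := by
  intro p a e α kk c r hp hp2 ha hq he hα hea hpe h9 h25 hk hc hr h1 h2
  obtain ⟨w, hw⟩ : ∃ w, p ^ a = w + 1 := ⟨p ^ a - 1, by omega⟩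
  have hw' : p ^ a - 1 = w := by omega
  have hw4 : 4 ≤ w := by omega
  rw [hw'] at h1 h2 ⊢
  have h3 : 2 * w ≤ α + 2 * e * r := by
    by_contra hcon
    push Not at hcon
    have h4 : (α + 2 * e * r) ^ 2 < (2 * w) ^ 2 := Nat.pow_lt_pow_left hcon (by norm_num)
    have h5 : 4 * (α * (2 * e * r)) ≤ (α + 2 * e * r) ^ 2 := by
      have := four_mul_le_sq_add α (2 * e * r)
      linarith
    have h6 : r * (2 * e * α) = α * (2 * e * r) := by ring
    rw [h6] at h2
    nlinarith
  have hS : 2 * w + e ^ 2 + 3 * e ≤ 2 * e * (kk + r) + 1 := by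
    have : 2 * e * (kk + r) = 2 * e * kk + 2 * e * r := by ring
    omega
  have hred : kk + r ≤ kk + c + r - 1 := by omega
  have main : (w + 1) ^ 2 * w ^ 2 ≤ 3 ^ (kk + c + r - 1) := by
    rcases Nat.lt_or_ge w 150 with hlt | hge
    · -- small
      rcases Nat.lt_or_ge e 2 with he1 | he2
      · have : e = 1 := by omega
        subst this
        refine fin ?_ (one w hw4)
        omega
      · have ha2 : 2 ≤ a := by
          by_contra h
          have : a = 1 := by omega
          subst this
          have := Nat.le_of_dvd (by norm_num) hea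
          omega
        have hp3 : 3 ≤ p := by
          have := hp.two_le
          omega
        have hp12 : p < 13 := by
          by_contra h
          push Not at h
          have h7 : 13 ^ 2 ≤ p ^ a := (Nat.pow_le_pow_left h 2).trans
            (Nat.pow_le_pow_right (by omega) ha2)
          omega
        have ha5 : a < 5 := by
          by_contra h
          push Not at h
          have h7 : 3 ^ 5 ≤ p ^ a := (Nat.pow_le_pow_right (by norm_num) h).trans
            (Nat.pow_le_pow_left hp3 a)
          omega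
        have hele : e ≤ a ^ 2 := Nat.le_of_dvd (by positivity) hea
        have hw2 : w = p ^ a - 1 := hw'.symm
        have hpp : p = 3 ∨ p = 5 ∨ p = 7 ∨ p = 11 := by
          clear * - hp hp3 hp12
          revert hp
          interval_cases p <;> decide
        have hsp : w = 80 → e = 16 → 16 ≤ kk + c + r - 1 := by
          intro hw3 he3
          subst hw3
          subst he3
          rcases Nat.lt_or_ge c 2 with hc2 | hc2
          · have hc3 : c = 1 := by omega
            subst hc3
            have hα5 : α ≤ 5 := by omega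
            have h12 : r * (2 * 16 * α) ≤ r * 160 := Nat.mul_le_mul_left _ (by omega)
            omega
          · omega
        clear h1 h2 h3 hele
        rcases hpp with rfl | rfl | rfl | rfl <;> interval_cases a <;> norm_num at hw2 <;>
          subst hw2 <;> first
          | omega
          | (have hele : e ≤ 16 := (Nat.le_of_dvd (by norm_num) hea).trans (by norm_num)
             interval_cases e <;> first
              | omega
              | (refine fin (s0 := 8) ?_ ?_
                 · omega
                 · norm_num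
                   done)
              | (refine fin (s0 := 12) ?_ ?_
                 · omega
                 · norm_num
                   done)
              | (refine fin (s0 := 15) ?_ ?_
                 · omega
                 · norm_num
                   done)
              | (refine fin (s0 := 16) ?_ ?_
                 · omega
                 · norm_num
                   done)
              | (refine fin (s0 := 18) ?_ ?_
                 · omega
                 · norm_num
                   done))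
    · -- large
      obtain ⟨m, hm⟩ : ∃ m, kk + r = m + 1 := ⟨kk + r - 1, by omega⟩
      rw [hm] at hS
      have h4 : 2 * w + e ^ 2 ≤ 2 * e * m := by nlinarith
      have h5 : 2 * w ≤ m ^ 2 := by
        have h6 : (2 * w + e ^ 2) ^ 2 ≤ (2 * e * m) ^ 2 := Nat.pow_le_pow_left h4 2
        have h7 : 4 * (2 * w * e ^ 2) ≤ (2 * w + e ^ 2) ^ 2 := by
          have := four_mul_le_sq_add (2 * w) (e ^ 2)
          linarith
        have h8 : (4 * e ^ 2) * (2 * w) ≤ (4 * e ^ 2) * m ^ 2 := by nlinarith
        exact Nat.le_of_mul_le_mul_left h8 (by positivity)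
      have h18 : 18 ≤ m := by nlinarith
      have hb := big m h18
      have h9' : 16 * ((w + 1) ^ 2 * w ^ 2) ≤ (m ^ 2 * (m ^ 2 + 2)) ^ 2 := by
        have h10 : 2 * w * (2 * w + 2) ≤ m ^ 2 * (m ^ 2 + 2) :=
          Nat.mul_le_mul h5 (by omega)
        have h11 := Nat.pow_le_pow_left h10 2
        calc 16 * ((w + 1) ^ 2 * w ^ 2) = (2 * w * (2 * w + 2)) ^ 2 := by ring
          _ ≤ _ := h11
      refine fin hred ?_
      rw [hm]
      omega
  rw [hw]
  exact main

end Pool.Agent.Helper60.AG
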